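import Pool.Agent.TH339.PA3

set_option autoImplicit false

/-!
# A conditional basis with Property (A)

For sequences `a` of scalars put
`N(a) = sup_{J, M} (|J|^{-1/2} ∑_{n ∈ J} |a n| + 1/2 |∑_{|J| ≤ n < M, n ∉ J} (√(n+1) - √n) a n|)`,
the supremum over all finite sets `J` of natural numbers and all `M`. Adding to `J` a coordinate
where `|a|` is largest never decreases the expression, so that for a vector `a = c + t 1_{ε A}` with
`|c| ≤ t` only the sets `J ⊇ A` matter, and for these the expression sees only `|A|`: the unit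
vectors have Property (A). The second part of the norm makes them conditional.
-/

namespace Pool.Agent.Results.MP_e9a5f2_an.ConditionalPropertyA

open Filter Topology

variable (𝕜 : Type) [RCLike 𝕜] {X : Type} [NormedAddCommGroup X] [NormedSpace 𝕜 X]

/-- `(x n)` with the functionals `(xs n)` is a semi-normalized Markushevich basis of `X`. -/
structure IsBasis (x : ℕ → X) (xs : ℕ → X →L[𝕜] 𝕜) : Prop where
  dense_span : (Submodule.span 𝕜 (Set.range x)).topologicalClosure = ⊤
  biorthogonal : ∀ n j, xs n (x j) = if n = j then 1 else 0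
  separates : ∀ y : X, (∀ n, xs n y = 0) → y = 0
  bounded : ∃ C : ℝ, ∀ n, ‖x n‖ ≤ C ∧ ‖xs n‖ ≤ C

/-- Property (A): `‖y + 1_{ε A}‖ = ‖y + 1_{η B}‖` if the coordinates of `y` are at most one in
absolute value and vanish on `A ∪ B`, the finite sets `A` and `B` are disjoint and have the same
number of elements, and the signs `ε`, `η` are unimodular. -/
def PropertyA (x : ℕ → X) (xs : ℕ → X →L[𝕜] 𝕜) : Prop :=
  ∀ (y : X) (A B : Finset ℕ) (ε η : ℕ → 𝕜),
    (∀ n, ‖xs n y‖ ≤ 1) → A.card = B.card → Disjoint A B → (∀ n ∈ A ∪ B, xs n y = 0) →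
    (∀ n ∈ A, ‖ε n‖ = 1) → (∀ n ∈ B, ‖η n‖ = 1) →
    ‖y + ∑ n ∈ A, ε n • x n‖ = ‖y + ∑ n ∈ B, η n • x n‖

/-- For all `y` the series `∑ xs n y • x n` converges unconditionally to `y`. -/
def IsUnconditional (x : ℕ → X) (xs : ℕ → X →L[𝕜] 𝕜) : Prop :=
  ∀ y : X, HasSum (fun n => xs n y • x n) y

/-- The basis is a monotone Schauder basis: the partial sums of the series `∑ xs n y • x n` in the
natural order have norm at most `‖y‖` and converge to `y`. -/
def IsMonotoneSchauder (x : ℕ → X) (xs : ℕ → X →L[𝕜] 𝕜) : Prop :=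
  ∀ y : X, (∀ k, ‖∑ n ∈ Finset.range k, xs n y • x n‖ ≤ ‖y‖) ∧
    Tendsto (fun k => ∑ n ∈ Finset.range k, xs n y • x n) atTop (𝓝 y)

/-- Over the real and over the complex numbers there is a Banach space with a basis which has
Property (A) but is not unconditional; it can be taken to be a monotone Schauder basis. -/
theorem result : ∀ (𝕜 : Type) [RCLike 𝕜],
    ∃ (X : Type) (_ : NormedAddCommGroup X) (_ : NormedSpace 𝕜 X) (x : ℕ → X)
      (xs : ℕ → X →L[𝕜] 𝕜), CompleteSpace X ∧ IsBasis 𝕜 x xs ∧ PropertyA 𝕜 x xs ∧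
      IsMonotoneSchauder 𝕜 x xs ∧ ¬ IsUnconditional 𝕜 x xs := by
  intro 𝕜 _
  refine ⟨TH339.PA.X 𝕜, inferInstance, inferInstance, TH339.PA.bx 𝕜, TH339.PA.bs 𝕜, inferInstance,
    ?_, ?_, ?_, TH339.PA.not_unconditional⟩
  · exact
      { dense_span := TH339.PA.dense_span
        biorthogonal := TH339.PA.bs_bx
        separates := fun y h => TH339.PA.eq_zero_of_co h
        bounded := ⟨1, fun n => ⟨TH339.PA.norm_bx_le n, TH339.PA.norm_bs_le n⟩⟩ }
  · intro y A B ε η hy hcard hAB h0 hε hη
    refine le_antisymm ?_ ?_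
    · exact TH339.PA.propA_le y A B ε η hy hAB hcard h0 hε hη
    · refine TH339.PA.propA_le y B A η ε hy hAB.symm hcard.symm (fun n hn => h0 n ?_) hη hε
      rwa [Finset.union_comm]
  · exact fun y => ⟨fun k => TH339.PA.norm_partial_le y k, TH339.PA.schauder y⟩

end Pool.Agent.Results.MP_e9a5f2_an.ConditionalPropertyA
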